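import Pool.Agent.N869.ZE.Stm
import Pool.Agent.N869.QT.G.AVSQ

/-!
# Project ZE (helper869), task SQ2 (helper322): the second moment
-/

set_option autoImplicit false
set_option linter.unusedVariables false

open scoped Classical

namespace Pool.Agent.N322.ZE

open Finset
open Pool.Agent.N869.ZE
open Pool.Agent.N869.QT.G (sys exC pr Dep GdC)

/-- first marginal -/
def m1 {Q V : Type} [Fintype Q] (n : (Q × Q) × V → ℕ) (x : Q × V) : ℕ :=
  ∑ q' : Q, n ((x.1, q'), x.2)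

/-- second marginal -/
def m2 {Q V : Type} [Fintype Q] (n : (Q × Q) × V → ℕ) (x : Q × V) : ℕ :=
  ∑ q' : Q, n ((q', x.1), x.2)

theorem cnt_m1 {R Q V : Type} [Fintype Q] (lv : R → V) (S : Finset R) (γ : R → Q × Q) :
    m1 (cnt (lc γ lv) S) = cnt (lc (fun p => (γ p).1) lv) S := by
  funext x
  obtain ⟨q, v⟩ := x
  unfold m1 cnt
  rw [Finset.card_eq_sum_card_fiberwise (f := fun p => (γ p).2) (t := univ)
    (fun _ _ => Finset.mem_coe.2 (mem_univ _))]
  refine Finset.sum_congr rfl fun q' _ => congrArg Finset.card (Finset.ext fun p => ?_)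
  simp only [mem_filter, lc, Prod.mk.injEq, Prod.ext_iff]
  tauto

theorem cnt_m2 {R Q V : Type} [Fintype Q] (lv : R → V) (S : Finset R) (γ : R → Q × Q) :
    m2 (cnt (lc γ lv) S) = cnt (lc (fun p => (γ p).2) lv) S := by
  funext x
  obtain ⟨q, v⟩ := x
  unfold m2 cnt
  rw [Finset.card_eq_sum_card_fiberwise (f := fun p => (γ p).1) (t := univ)
    (fun _ _ => Finset.mem_coe.2 (mem_univ _))]
  refine Finset.sum_congr rfl fun q' _ => congrArg Finset.card (Finset.ext fun p => ?_)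
  simp only [mem_filter, lc, Prod.mk.injEq, Prod.ext_iff]
  tauto

theorem mrg_m1 {I Q V : Type} [Fintype Q] (E : I → Finset Q) (n : (Q × Q) × V → ℕ) (a : I)
    (v : V) : ∑ q ∈ E a ×ˢ (univ : Finset Q), n (q, v) = mrg E (m1 n) a v := by
  unfold mrg m1
  rw [Finset.sum_product]

theorem mrg_m2 {I Q V : Type} [Fintype Q] (E : I → Finset Q) (n : (Q × Q) × V → ℕ) (a : I)
    (v : V) : ∑ q ∈ (univ : Finset Q) ×ˢ E a, n (q, v) = mrg E (m2 n) a v := by
  unfold mrg m2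
  rw [Finset.sum_product_right]

theorem ok_EE {I Q V : Type} [Fintype Q] (E : I → Finset Q) (Ad : (V → ℕ) → Prop) (Bad : Set V)
    (P : (Q × V → ℕ) → Prop) (h : OkP E Ad Bad P) :
    OkP (EE E) Ad Bad (fun n => P (m1 n) ∧ P (m2 n)) := by
  rintro n ⟨h1, h2⟩
  refine ⟨?_, ?_⟩
  · rintro (a | a)
    · have e1 : mrg (EE E) n (Sum.inl a) = mrg E (m1 n) a := by
        funext v
        exact mrg_m1 E n a v
      rw [e1]
      exact (h _ h1).1 a
    · have e1 : mrg (EE E) n (Sum.inr a) = mrg E (m2 n) a := by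
        funext v
        exact mrg_m2 E n a v
      rw [e1]
      exact (h _ h2).1 a
  · rintro ⟨q, q'⟩ v hv
    have e1 : m1 n (q, v) = 0 := (h _ h1).2 q v hv
    exact (Finset.sum_eq_zero_iff.1 e1) q' (mem_univ _)

theorem ok_E1 {I Q V : Type} [Fintype Q] (E : I → Finset Q) (Ad : (V → ℕ) → Prop) (Bad : Set V)
    (P : (Q × V → ℕ) → Prop) (h : OkP E Ad Bad P) :
    OkP (fun a : I => E a ×ˢ (univ : Finset Q)) Ad Bad (fun n => P (m1 n) ∧ P (m2 n)) := by
  rintro n ⟨h1, h2⟩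
  refine ⟨?_, ?_⟩
  · intro a
    have e1 : mrg (fun a : I => E a ×ˢ (univ : Finset Q)) n a = mrg E (m1 n) a := by
      funext v
      exact mrg_m1 E n a v
    rw [e1]
    exact (h _ h1).1 a
  · rintro ⟨q, q'⟩ v hv
    have e1 : m1 n (q, v) = 0 := (h _ h1).2 q v hv
    exact (Finset.sum_eq_zero_iff.1 e1) q' (mem_univ _)

theorem dep_P {R Q V : Type} (lv : R → V) (P : (Q × V → ℕ) → Prop) (S : Finset R) :
    Dep S (fun γ : R → Q => P (cnt (lc γ lv) S)) := by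
  intro γ γ' h
  have e1 : cnt (lc γ lv) S = cnt (lc γ' lv) S := by
    funext l
    unfold cnt
    refine congrArg Finset.card (Finset.ext fun p => ?_)
    simp only [mem_filter, lc]
    refine and_congr_right fun hp => ?_
    rw [h p hp]
  simp only [e1]

theorem all_EE {R I Q : Type} [Fintype Q] (Gd : Finset R → Prop) (E : I → Finset Q)
    (S : Finset R) (γ : R → Q × Q) :
    (∀ a, Gd (sys γ (EE E) S a)) ↔ (∀ a, Gd (sys (fun p => (γ p).1) E S a)) ∧
      ∀ a, Gd (sys (fun p => (γ p).2) E S a) :=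
  Pool.Agent.N869.QT.G.GdC_EE Gd E E S γ

theorem all_E1 {R I Q : Type} [Fintype Q] (Gd : Finset R → Prop) (E : I → Finset Q)
    (S : Finset R) (γ : R → Q × Q) :
    (∀ a, Gd (sys γ (fun a : I => E a ×ˢ (univ : Finset Q)) S a)) ↔
      ∀ a, Gd (sys (fun p => (γ p).1) E S a) :=
  Pool.Agent.N869.QT.G.GdC_E1 Gd E S γ

/-- **SQ2** -/
theorem t_SQ2 : S_SQ2 := by
  intro R SA Gd c V _ lv Ad Bad I Q _ _ _ E hA1 hA2 P hP δ ε hδ hε
  set k : ℕ := Fintype.card I with hk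
  obtain ⟨x, hx⟩ : ∃ x : Finset R → ℝ, ∀ S, x S =
    pr S (fun γ : R → Q => P (cnt (lc γ lv) S) ∧ ∀ a, Gd (sys γ E S a)) := ⟨_, fun _ => rfl⟩
  obtain ⟨y, hy⟩ : ∃ y : Finset R → ℝ, ∀ S, y S =
    pr S (fun γ : R → Q => P (cnt (lc γ lv) S)) := ⟨_, fun _ => rfl⟩
  simp only [← hx, ← hy]
  set C : ℝ := 1 + 2 * |c ^ k| with hC
  have hCpos : 0 < C := by positivity
  set ε₁ : ℝ := δ ^ 2 * ε / C with hε₁
  have hε₁pos : 0 < ε₁ := by positivity
  have dy : ∀ S : Finset R, Dep S (fun γ : R → Q => P (cnt (lc γ lv) S)) :=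
    fun S => dep_P lv P S
  have dx : ∀ S : Finset R, Dep S (fun γ : R → Q => P (cnt (lc γ lv) S) ∧
      ∀ a, Gd (sys γ E S a)) :=
    fun S => (dy S).and (Pool.Agent.N869.QT.G.dep_GdC Gd E S)
  obtain ⟨X₁, h₁⟩ := hA1 (fun n => P (m1 n) ∧ P (m2 n)) (ok_EE E Ad Bad P hP) ε₁ hε₁pos
  obtain ⟨X₂, h₂⟩ := hA2 (fun n => P (m1 n) ∧ P (m2 n)) (ok_E1 E Ad Bad P hP) ε₁ hε₁pos
  have e1 : ∀ S : Finset R, pr S (fun γ : R → Q × Q =>
      (P (m1 (cnt (lc γ lv) S)) ∧ P (m2 (cnt (lc γ lv) S))) ∧ ∀ a, Gd (sys γ (EE E) S a)) =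
      x S * x S := by
    intro S
    rw [hx, ← Pool.Agent.N869.QT.G.t_AV3 R Q S _ _ (dx S) (dx S)]
    congr 1
    funext γ
    rw [cnt_m1, cnt_m2, all_EE]
    apply propext
    tauto
  have e2 : ∀ S : Finset R, pr S (fun γ : R → Q × Q =>
      P (m1 (cnt (lc γ lv) S)) ∧ P (m2 (cnt (lc γ lv) S))) = y S * y S := by
    intro S
    rw [hy, ← Pool.Agent.N869.QT.G.t_AV3 R Q S _ _ (dy S) (dy S)]
    congr 1
    funext γ
    rw [cnt_m1, cnt_m2]
  have e3 : ∀ S : Finset R, pr S (fun γ : R → Q × Q =>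
      (P (m1 (cnt (lc γ lv) S)) ∧ P (m2 (cnt (lc γ lv) S))) ∧
        ∀ a, Gd (sys γ (fun a : I => E a ×ˢ (univ : Finset Q)) S a)) = x S * y S := by
    intro S
    rw [hx, hy, ← Pool.Agent.N869.QT.G.t_AV3 R Q S _ _ (dx S) (dy S)]
    congr 1
    funext γ
    rw [cnt_m1, cnt_m2, all_E1]
    apply propext
    tauto
  refine ⟨max X₁ X₂, fun X hX => ?_⟩
  have g1 := h₁ X (le_trans (le_max_left _ _) hX)
  have g2 := h₂ X (le_trans (le_max_right _ _) hX)
  rw [Fintype.card_sum, ← hk] at g1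
  rw [← hk] at g2
  simp only [e1, e2] at g1
  simp only [e3, e2] at g2
  have hsq : ∑ S ∈ SA X, (x S - c ^ k * y S) ^ 2 =
      (∑ S ∈ SA X, x S * x S - c ^ (k + k) * ∑ S ∈ SA X, y S * y S) -
        2 * c ^ k * (∑ S ∈ SA X, x S * y S - c ^ k * ∑ S ∈ SA X, y S * y S) := by
    rw [Finset.mul_sum, Finset.mul_sum, ← Finset.sum_sub_distrib, ← Finset.sum_sub_distrib,
      Finset.mul_sum, ← Finset.sum_sub_distrib]
    refine Finset.sum_congr rfl fun S _ => ?_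
    rw [pow_add]
    ring
  have hle : ∑ S ∈ SA X, (x S - c ^ k * y S) ^ 2 ≤ C * (ε₁ * X) := by
    rw [hsq, hC]
    have a1 := le_abs_self (∑ S ∈ SA X, x S * x S - c ^ (k + k) * ∑ S ∈ SA X, y S * y S)
    have a2 : -(2 * c ^ k * (∑ S ∈ SA X, x S * y S - c ^ k * ∑ S ∈ SA X, y S * y S)) ≤
        2 * |c ^ k| * (ε₁ * X) := by
      refine le_trans (neg_le_abs _) ?_
      rw [abs_mul, abs_mul, abs_two]
      exact mul_le_mul_of_nonneg_left g2 (by positivity)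
    nlinarith [a1, a2, g1]
  have hmk : δ ^ 2 * (((SA X).filter fun S => δ < |x S - c ^ k * y S|).card : ℝ) ≤
      ∑ S ∈ SA X, (x S - c ^ k * y S) ^ 2 := by
    have : ∑ S ∈ (SA X).filter (fun S => δ < |x S - c ^ k * y S|), (x S - c ^ k * y S) ^ 2 ≤
        ∑ S ∈ SA X, (x S - c ^ k * y S) ^ 2 :=
      Finset.sum_le_sum_of_subset_of_nonneg (Finset.filter_subset _ _) (fun _ _ _ => sq_nonneg _)
    refine le_trans ?_ this
    rw [mul_comm, ← nsmul_eq_mul]
    refine Finset.card_nsmul_le_sum _ _ _ ?_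
    intro S hS
    have h := (mem_filter.mp hS).2
    rw [← sq_abs (x S - c ^ k * y S)]
    exact pow_le_pow_left₀ hδ.le h.le 2
  have hfin : δ ^ 2 * (((SA X).filter fun S => δ < |x S - c ^ k * y S|).card : ℝ) ≤
      δ ^ 2 * (ε * X) := by
    refine le_trans hmk (le_trans hle (le_of_eq ?_))
    rw [hε₁]
    field_simp
  exact le_of_mul_le_mul_left hfin (by positivity)

end Pool.Agent.N322.ZE
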